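import Pool.Agent.Helper11.NI.Vec
import Pool.Agent.Helper35.NI.Core2

/-!
# Project FQ (MP_0f6f3f_an), layer NI: the near isometry, part 2: contractions of finite support

`Z = vec (pT0 c c') (cS c c' w w')`, `P = vec (pT0 c c') (cS c c' 1 1)`. `norm_Z_sq`: `‖Z‖² ≤ 1 + ...`; `norm_PZ`: `|⟪P, Z⟫ - 1| ≤ ...`.
-/

set_option autoImplicit false
set_option linter.unusedSectionVars false

open MeasureTheory Filter Topology
open scoped ComplexConjugate

namespace Pool.Agent.Helper11.NI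

open Pool.Agent.Helper84.NI Pool.Agent.Helper84.GN Pool.Agent.Helper84.GVN Pool.Agent.Helper20.TB
open Pool.Agent.Helper35.NI (nc nc_nonneg nc_le nc_le_one BN2)

variable {G : Type} [Group G]

theorem nr_eq (c : G →₀ ℂ) (e : G → ℂ) : nr e c = nc c e := rfl

/-- Cauchy-Schwarz for one coefficient. -/
theorem norm_cfr_le_mul (c : G →₀ ℂ) (e f : G → ℂ) (r : G) : ‖cfr c (fun g r => e g * f (g * r)) r‖ ≤ nc c e * nc c f := by
  classical
  unfold cfr
  have h1 : ‖∑ g ∈ c.support, e g * f (g * r) * (conj (c g) * c (g * r))‖ ≤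
      ∑ g ∈ c.support, ‖e g * c g‖ * ‖f (g * r) * c (g * r)‖ := by
    refine (norm_sum_le _ _).trans (le_of_eq (Finset.sum_congr rfl fun g _ => ?_))
    rw [norm_mul, norm_mul, norm_mul, norm_mul, norm_mul, RCLike.norm_conj]
    ring
  refine h1.trans ((Real.sum_mul_le_sqrt_mul_sqrt _ _ _).trans ?_)
  refine mul_le_mul le_rfl ?_ (Real.sqrt_nonneg _) (Real.sqrt_nonneg _)
  unfold nc
  refine Real.sqrt_le_sqrt ?_
  have h2 : ∑ g ∈ c.support, ‖f (g * r) * c (g * r)‖ ^ 2 = ∑ h ∈ c.support.image (fun g => g * r), ‖f h * c h‖ ^ 2 := by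
    rw [Finset.sum_image fun a _ b _ hab => mul_right_cancel hab]
  rw [h2]
  calc ∑ h ∈ c.support.image (fun g => g * r), ‖f h * c h‖ ^ 2
      ≤ ∑ h ∈ c.support.image (fun g => g * r) ∪ c.support, ‖f h * c h‖ ^ 2 :=
        Finset.sum_le_sum_of_subset_of_nonneg Finset.subset_union_left fun _ _ _ => by positivity
    _ = ∑ h ∈ c.support, ‖f h * c h‖ ^ 2 := by
        refine (Finset.sum_subset Finset.subset_union_right fun k _ hk => ?_).symm
        rw [Finsupp.notMem_support_iff.1 hk, mul_zero, norm_zero]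
        norm_num

theorem norm_vec_alpha {c : G →₀ ℂ} (hc : Con c) {s : Finset G} (hs : (1 : G) ∉ s) :
    ‖vec s (fun r => cfr c (fun _ _ => 1) r)‖ ≤ √(1 - nc c (fun _ => 1) ^ 2) := by
  classical
  have h1 := norm_vec_sub_dl hc (T := insert 1 s) (Finset.mem_insert_self _ _)
  refine le_trans ?_ h1
  refine (sq_le_sq₀ (norm_nonneg _) (norm_nonneg _)).1 ?_
  rw [norm_vec_sq]
  have h2 := sum_le_hasSum s (fun i _ => sq_nonneg ‖(vec (insert 1 s) (fun r => cfr c (fun _ _ => 1) r) - dl 1 : L2 G) i‖)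
    (hasSum_sq (vec (insert 1 s) (fun r => cfr c (fun _ _ => 1) r) - dl 1 : L2 G))
  refine le_trans (le_of_eq (Finset.sum_congr rfl fun r hr => ?_)) h2
  have h3 : (vec (insert 1 s) (fun r => cfr c (fun _ _ => 1) r) - dl 1 : L2 G) r = cfr c (fun _ _ => 1) r := by
    change vec (insert 1 s) (fun r => cfr c (fun _ _ => 1) r) r - (dl 1 : L2 G) r = _
    rw [vec_apply, if_pos (Finset.mem_insert_of_mem hr), dl_apply,
      if_neg (fun h : r = 1 => hs (by rw [← h]; exact hr)), sub_zero]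
  rw [h3]

theorem norm_vec_one_sub {c : G →₀ ℂ} (hc : Con c) {w : G → ℝ} {T : Finset G} (hT : (1 : G) ∈ T) :
    ‖vec T (fun r => cfr c (fun g _ => ((w g : ℝ) : ℂ)) r) - dl 1‖ ≤
      √(1 - nc c (fun _ => 1) ^ 2) + nc c (fun g => ((1 - w g : ℝ) : ℂ)) := by
  have h1 : vec T (fun r => cfr c (fun g _ => ((w g : ℝ) : ℂ)) r) =
      vec T (fun r => cfr c (fun _ _ => 1) r) - vec T (fun r => cfr c (fun g _ => ((1 - w g : ℝ) : ℂ)) r) := by
    rw [← vec_sub]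
    refine vec_congr fun r _ => ?_
    unfold cfr
    rw [← Finset.sum_sub_distrib]
    refine Finset.sum_congr rfl fun g _ => ?_
    push_cast
    ring
  rw [h1, sub_right_comm]
  exact (norm_sub_le _ _).trans (add_le_add (norm_vec_sub_dl hc hT) (norm_vec_bessel hc _ T))

/-- The scalar product of `P` and `Z`. -/
theorem norm_PZ {c c' : G →₀ ℂ} (hc : Con c) (hc' : Con c') {w w' : G → ℝ} (hw' : ∀ g, 0 ≤ w' g ∧ w' g ≤ 1) :
    ‖(inner ℂ (vec (pT0 c c') (cS c c' (fun _ => 1) fun _ => 1))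
      (vec (pT0 c c') (cS c c' (fun g => ((w g : ℝ) : ℂ)) fun g => ((w' g : ℝ) : ℂ))) : ℂ) - 1‖ ≤
      (√(1 - nc c (fun _ => 1) ^ 2) + nc c (fun g => ((1 - w g : ℝ) : ℂ))) +
      (√(1 - nc c' (fun _ => 1) ^ 2) + nc c' (fun g => ((1 - w' g : ℝ) : ℂ))) := by
  set x : L2 G := vec (pT1 c) (fun r => cfr c (fun g _ => ((w g : ℝ) : ℂ)) r) with hx
  set y : L2 G := vec (pT1 c) (fun r => cfr c' (fun g _ => ((w' g : ℝ) : ℂ)) r) with hy
  have h1 : (inner ℂ (vec (pT0 c c') (cS c c' (fun _ => 1) fun _ => 1))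
      (vec (pT0 c c') (cS c c' (fun g => ((w g : ℝ) : ℂ)) fun g => ((w' g : ℝ) : ℂ))) : ℂ) = inner ℂ x y := by
    rw [inner_vec, pair_pol, hx, hy, inner_vec]
    refine Finset.sum_congr rfl fun r _ => ?_
    simp only [Complex.conj_ofReal, mul_one]
  have h2 : (inner ℂ x y : ℂ) - 1 = inner ℂ (x - dl 1) y + inner ℂ (dl 1) (y - dl 1) := by
    rw [inner_sub_left, inner_sub_right]
    have h3 : (inner ℂ (dl 1 : L2 G) (dl 1 : L2 G) : ℂ) = 1 := by rw [inner_dl_left, dl_self]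
    rw [h3]
    ring
  have h3 : ‖x - dl 1‖ ≤ √(1 - nc c (fun _ => 1) ^ 2) + nc c (fun g => ((1 - w g : ℝ) : ℂ)) := norm_vec_one_sub hc (one_mem_pT1 c)
  have h4 : ‖y - dl 1‖ ≤ √(1 - nc c' (fun _ => 1) ^ 2) + nc c' (fun g => ((1 - w' g : ℝ) : ℂ)) := norm_vec_one_sub hc' (one_mem_pT1 c)
  have h5 : ‖y‖ ≤ 1 := (norm_vec_bessel hc' _ _).trans (nr_le_one hc' fun g => by
    rw [Complex.norm_real, Real.norm_of_nonneg (hw' g).1]
    exact (hw' g).2)
  rw [h1, h2]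
  refine (norm_add_le _ _).trans (add_le_add ?_ ?_)
  · refine (norm_inner_le_norm _ _).trans ?_
    have h6 := norm_nonneg (x - dl 1)
    nlinarith
  · refine (norm_inner_le_norm _ _).trans ?_
    rw [norm_dl, one_mul]
    exact h4

theorem norm_one_cfr {c : G →₀ ℂ} (hc : Con c) (e : G → ℂ) (r : G) : ‖cfr c (fun g _ => e g) r‖ ≤ nc c e := by
  have h := norm_vec_bessel hc e {r}
  rw [norm_vec, Finset.sum_singleton, Real.sqrt_sq (norm_nonneg _)] at h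
  exact h

open Classical in
/-- The norm of `Z`. -/
theorem norm_Z_sq {w w' : G → ℝ} (hw : ∀ g, 0 ≤ w g ∧ w g ≤ 1) (hw' : ∀ g, 0 ≤ w' g ∧ w' g ≤ 1) {R1 : Set G} {R0 : Finset G} {N : Set G}
    {C1 C2 ε1 : ℝ} (hcl : ∀ g r h, w g ≠ 0 → w (g * r) ≠ 0 → w' h ≠ 0 → w' (h * r) ≠ 0 → r ∈ R1 ∨ r⁻¹ ∈ R1 ∨ r ∈ R0)
    (h1 : BN2 (fun g r => if w g ≠ 0 ∧ r ∈ R1 then ((w (g * r) : ℝ) : ℂ) else 0) C1) {F0 : G → ℂ} {D : G → G → ℂ} (hF0 : ∀ r, ‖F0 r‖ ≤ 1)
    (hD : BN2 D C2) (hDN : BN2 (fun h r => if h ∈ N then D h r else 0) ε1)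
    (hF : ∀ h r, w' h ≠ 0 → r⁻¹ ∈ R1 → ((w' (h * r) : ℝ) : ℂ) = F0 r + D h r) {c c' : G →₀ ℂ} (hc : Con c) (hc' : Con c') :
    ‖vec (pT0 c c') (cS c c' (fun g => ((w g : ℝ) : ℂ)) fun g => ((w' g : ℝ) : ℂ))‖ ^ 2 ≤
      1 + R0.card * (√(1 - nc c' (fun _ => 1) ^ 2) + 2 * nc c' (fun g => ((1 - w' g : ℝ) : ℂ))) +
        2 * C1 * (√(1 - nc c' (fun _ => 1) ^ 2) + nc c' (fun g => ((1 - w' g : ℝ) : ℂ)) + ε1 + C2 * nc c' (Set.indicator Nᶜ fun _ => 1)) := by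
  set η : ℝ := √(1 - nc c' (fun _ => 1) ^ 2) with hη
  set δ : ℝ := nc c' (fun g => ((1 - w' g : ℝ) : ℂ)) with hδ
  set δ3 : ℝ := nc c' (Set.indicator Nᶜ fun _ => 1) with hδ3
  have hη0 : 0 ≤ η := Real.sqrt_nonneg _
  have hδ0 : 0 ≤ δ := nc_nonneg _ _
  have hδ30 : 0 ≤ δ3 := nc_nonneg _ _
  have hkw : ∀ w : G → ℝ, (fun (g r : G) => conj ((w g : ℝ) : ℂ) * ((w (g * r) : ℝ) : ℂ)) = kw w := by
    intro w
    funext g r
    unfold kw
    rw [Complex.conj_ofReal]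
    push_cast
    rfl
  have hk : ∀ w : G → ℝ, (∀ g, 0 ≤ w g ∧ w g ≤ 1) → ∀ g r, ‖kw w g r‖ ≤ 1 := fun w hw g r => by
    unfold kw
    rw [Complex.norm_real, Real.norm_eq_abs, abs_mul, abs_of_nonneg (hw _).1, abs_of_nonneg (hw _).1]
    exact mul_le_one₀ (hw _).2 (hw _).1 (hw _).2
  set a : G → ℂ := fun r => cfr c (kw w) r with ha
  set b : G → ℂ := fun r => cfr c' (kw w') r with hb
  have ha1 : ∀ r, ‖a r‖ ≤ 1 := fun r => norm_cfr_le hc (hk w hw) r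
  have hb1 : ∀ r, ‖b r‖ ≤ 1 := fun r => norm_cfr_le hc' (hk w' hw') r
  have hai : ∀ r, ‖a r⁻¹‖ = ‖a r‖ := fun r => norm_cfr_inv c w r
  have hbi : ∀ r, ‖b r⁻¹‖ = ‖b r‖ := fun r => norm_cfr_inv c' w' r
  -- the norm as a sum over `r`
  have hsum : ‖vec (pT0 c c') (cS c c' (fun g => ((w g : ℝ) : ℂ)) fun g => ((w' g : ℝ) : ℂ))‖ ^ 2 ≤
      ∑ r ∈ pT1 c, ‖a r‖ * ‖b r‖ := by
    have e1 : (inner ℂ (vec (pT0 c c') (cS c c' (fun g => ((w g : ℝ) : ℂ)) fun g => ((w' g : ℝ) : ℂ)))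
        (vec (pT0 c c') (cS c c' (fun g => ((w g : ℝ) : ℂ)) fun g => ((w' g : ℝ) : ℂ))) : ℂ) = ∑ r ∈ pT1 c, conj (a r) * b r := by
      rw [inner_vec, pair_pol, hkw, hkw]
    have e2 : ‖vec (pT0 c c') (cS c c' (fun g => ((w g : ℝ) : ℂ)) fun g => ((w' g : ℝ) : ℂ))‖ ^ 2 =
        ‖∑ r ∈ pT1 c, conj (a r) * b r‖ := by
      rw [← e1, inner_self_eq_norm_sq_to_K]
      simp
    rw [e2]
    refine (norm_sum_le _ _).trans (le_of_eq (Finset.sum_congr rfl fun r _ => ?_))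
    rw [norm_mul, RCLike.norm_conj]
  refine hsum.trans ?_
  -- the three classes
  have hcl' : ∀ r, ‖a r‖ * ‖b r‖ ≠ 0 → r ∈ R1 ∨ r⁻¹ ∈ R1 ∨ r ∈ R0 := by
    intro r hr
    have e1 : cfr c (kw w) r ≠ 0 := fun h => hr (by simp only [ha, h, norm_zero, zero_mul])
    have e2 : cfr c' (kw w') r ≠ 0 := fun h => hr (by simp only [hb, h, norm_zero, mul_zero])
    obtain ⟨g, _, hg⟩ := Finset.exists_ne_zero_of_sum_ne_zero e1
    obtain ⟨h, _, hh⟩ := Finset.exists_ne_zero_of_sum_ne_zero e2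
    have e3 : kw w g r ≠ 0 := left_ne_zero_of_mul hg
    have e4 : kw w' h r ≠ 0 := left_ne_zero_of_mul hh
    unfold kw at e3 e4
    have e5 : w g * w (g * r) ≠ 0 := fun h0 => e3 (by rw [h0, Complex.ofReal_zero])
    have e6 : w' h * w' (h * r) ≠ 0 := fun h0 => e4 (by rw [h0, Complex.ofReal_zero])
    exact hcl g r h (left_ne_zero_of_mul e5) (right_ne_zero_of_mul e5) (left_ne_zero_of_mul e6) (right_ne_zero_of_mul e6)
  -- `a` on `R1`
  have hA : ∀ s : Finset G, (∀ r ∈ s, r ∈ R1) → ‖vec s a‖ ≤ C1 := by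
    intro s hs
    have e1 : vec s a = vec s (fun r => cfr c (fun g r => ((w g : ℝ) : ℂ) *
        (if w g ≠ 0 ∧ r ∈ R1 then ((w (g * r) : ℝ) : ℂ) else 0)) r) := by
      refine vec_congr fun r hr => ?_
      simp only [ha]
      unfold cfr kw
      refine Finset.sum_congr rfl fun g _ => ?_
      congr 1
      dsimp only
      by_cases hg : w g = 0
      · rw [hg]
        simp
      · rw [if_pos ⟨hg, hs r hr⟩]
        push_cast
        rfl
    rw [e1]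
    refine norm_vec_le_of_dual h1.1 fun x => ?_
    refine (h1.2 c hc (fun g => ((w g : ℝ) : ℂ)) s x).trans ?_
    have e2 : nc c (fun g => ((w g : ℝ) : ℂ)) ≤ 1 := nc_le_one hc zero_le_one fun g => by
      rw [Complex.norm_real, Real.norm_of_nonneg (hw g).1]
      exact (hw g).2
    exact mul_le_mul_of_nonneg_right (mul_le_of_le_one_right h1.1 e2) (Real.sqrt_nonneg _)
  -- `b` on the inverse of `R1`
  set K : ℝ := η + δ + ε1 + C2 * δ3 with hK
  have hC1 := h1.1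
  have hC2 := hD.1
  have hε1 := hDN.1
  have hK0 : 0 ≤ K := by positivity
  have hB : ∀ s : Finset G, (∀ r ∈ s, r⁻¹ ∈ R1 ∧ r ≠ 1) → ‖vec s b‖ ≤ K := by
    intro s hs
    have hs1 : (1 : G) ∉ s := fun h => (hs 1 h).2 rfl
    have e1 : vec s b = (vec s (fun r => F0 r * (cfr c' (fun _ _ => 1) r - cfr c' (fun g _ => ((1 - w' g : ℝ) : ℂ)) r)) +
        vec s (fun r => cfr c' (fun g r => ((w' g : ℝ) : ℂ) * (if g ∈ N then D g r else 0)) r)) +
        vec s (fun r => cfr c' (fun g r => (((w' g : ℝ) : ℂ) * Set.indicator Nᶜ (fun _ => 1) g) * D g r) r) := by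
      rw [← vec_add, ← vec_add]
      refine vec_congr fun r hr => ?_
      simp only [hb]
      unfold cfr
      rw [← Finset.sum_sub_distrib, Finset.mul_sum, ← Finset.sum_add_distrib, ← Finset.sum_add_distrib]
      refine Finset.sum_congr rfl fun g _ => ?_
      unfold kw
      dsimp only
      by_cases hg : w' g = 0
      · rw [hg]
        push_cast
        ring
      · have e2 := hF g r hg (hs r hr).1
        push_cast
        rw [e2]
        by_cases hN : g ∈ N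
        · rw [if_pos hN, Set.indicator_of_notMem (fun h : g ∈ Nᶜ => h hN)]
          ring
        · rw [if_neg hN, Set.indicator_of_mem (show g ∈ Nᶜ from hN)]
          ring
    rw [e1]
    have hw1 : nc c' (fun g => ((w' g : ℝ) : ℂ)) ≤ 1 := nc_le_one hc' zero_le_one fun g => by
      rw [Complex.norm_real, Real.norm_of_nonneg (hw' g).1]
      exact (hw' g).2
    have k1 : ‖vec s (fun r => F0 r * (cfr c' (fun _ _ => 1) r - cfr c' (fun g _ => ((1 - w' g : ℝ) : ℂ)) r))‖ ≤ η + δ := by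
      refine (norm_vec_mul_le zero_le_one fun r _ => hF0 r).trans ?_
      rw [one_mul, vec_sub]
      exact (norm_sub_le _ _).trans (add_le_add (norm_vec_alpha hc' hs1) (norm_vec_bessel hc' _ s))
    have k2 : ‖vec s (fun r => cfr c' (fun g r => ((w' g : ℝ) : ℂ) * (if g ∈ N then D g r else 0)) r)‖ ≤ ε1 := by
      refine norm_vec_le_of_dual hε1 fun x => ?_
      refine (hDN.2 c' hc' (fun g => ((w' g : ℝ) : ℂ)) s x).trans ?_
      exact mul_le_mul_of_nonneg_right (mul_le_of_le_one_right hε1 hw1) (Real.sqrt_nonneg _)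
    have k3 : ‖vec s (fun r => cfr c' (fun g r => (((w' g : ℝ) : ℂ) * Set.indicator Nᶜ (fun _ => 1) g) * D g r) r)‖ ≤ C2 * δ3 := by
      refine norm_vec_le_of_dual (mul_nonneg hC2 hδ30) fun x => ?_
      refine (hD.2 c' hc' (fun g => ((w' g : ℝ) : ℂ) * Set.indicator Nᶜ (fun _ => 1) g) s x).trans ?_
      refine mul_le_mul_of_nonneg_right (mul_le_mul_of_nonneg_left ?_ hC2) (Real.sqrt_nonneg _)
      have k4 := nc_le (c := c') (e := fun g => ((w' g : ℝ) : ℂ) * Set.indicator Nᶜ (fun _ => 1) g) (e' := Set.indicator Nᶜ fun _ => 1)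
        (A := 1) zero_le_one fun g => by
          rw [norm_mul, Complex.norm_real, Real.norm_of_nonneg (hw' g).1]
          exact mul_le_mul_of_nonneg_right (hw' g).2 (norm_nonneg _)
      rw [one_mul] at k4
      exact k4
    refine (norm_add_le _ _).trans ?_
    refine (add_le_add (norm_add_le _ _) le_rfl).trans ?_
    rw [hK]
    linarith
  -- `b` on the finite set
  have hB0 : ∀ r, r ≠ 1 → ‖b r‖ ≤ η + 2 * δ := by
    intro r hr
    have e1 : b r = cfr c' (fun _ _ => 1) r - cfr c' (fun g _ => ((1 - w' g : ℝ) : ℂ)) r -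
        cfr c' (fun g r => ((w' g : ℝ) : ℂ) * ((1 - w' (g * r) : ℝ) : ℂ)) r := by
      simp only [hb]
      unfold cfr kw
      rw [← Finset.sum_sub_distrib, ← Finset.sum_sub_distrib]
      refine Finset.sum_congr rfl fun g _ => ?_
      push_cast
      ring
    have e2 : ‖cfr c' (fun _ _ => 1) r‖ ≤ η := by
      have h := norm_vec_alpha hc' (s := {r}) (by rw [Finset.mem_singleton]; exact fun h => hr h.symm)
      rw [norm_vec, Finset.sum_singleton, Real.sqrt_sq (norm_nonneg _)] at h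
      exact h
    have e3 : ‖cfr c' (fun g _ => ((1 - w' g : ℝ) : ℂ)) r‖ ≤ δ := norm_one_cfr hc' _ r
    have e4 : ‖cfr c' (fun g r => ((w' g : ℝ) : ℂ) * ((1 - w' (g * r) : ℝ) : ℂ)) r‖ ≤ δ := by
      refine (norm_cfr_le_mul c' (fun g => ((w' g : ℝ) : ℂ)) (fun g => ((1 - w' g : ℝ) : ℂ)) r).trans ?_
      refine mul_le_of_le_one_left hδ0 (nc_le_one hc' zero_le_one fun g => ?_)
      rw [Complex.norm_real, Real.norm_of_nonneg (hw' g).1]
      exact (hw' g).2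
    rw [e1]
    have e5 := norm_sub_le (cfr c' (fun _ _ => 1) r - cfr c' (fun g _ => ((1 - w' g : ℝ) : ℂ)) r)
      (cfr c' (fun g r => ((w' g : ℝ) : ℂ) * ((1 - w' (g * r) : ℝ) : ℂ)) r)
    have e6 := norm_sub_le (cfr c' (fun _ _ => 1) r) (cfr c' (fun g _ => ((1 - w' g : ℝ) : ℂ)) r)
    linarith
  have hcs : ∀ s : Finset G, ‖vec s a‖ ≤ C1 → ‖vec s b‖ ≤ K → ∑ r ∈ s, ‖a r‖ * ‖b r‖ ≤ C1 * K := by
    intro s e1 e2
    refine (Real.sum_mul_le_sqrt_mul_sqrt s (fun r => ‖a r‖) fun r => ‖b r‖).trans ?_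
    rw [← norm_vec, ← norm_vec]
    exact mul_le_mul e1 e2 (norm_nonneg _) hC1
  have hinv : ∀ (s : Finset G) (f : G → ℂ), (∀ r, ‖f r⁻¹‖ = ‖f r‖) → ‖vec s f‖ = ‖vec (s.image fun r => r⁻¹) f‖ := by
    intro s f hf
    rw [norm_vec, norm_vec, Finset.sum_image fun x _ y _ hxy => inv_injective hxy]
    congr 1
    exact Finset.sum_congr rfl fun r _ => by rw [hf]
  have k1 : ∑ r ∈ (pT1 c).filter (fun r => r ∈ R1 ∧ r ≠ 1), ‖a r‖ * ‖b r‖ ≤ C1 * K := by
    refine hcs _ (hA _ fun r hr => (Finset.mem_filter.1 hr).2.1) ?_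
    rw [hinv _ b hbi]
    refine hB _ fun r hr => ?_
    obtain ⟨x, hx, rfl⟩ := Finset.mem_image.1 hr
    rw [inv_inv]
    exact ⟨(Finset.mem_filter.1 hx).2.1, inv_ne_one.2 (Finset.mem_filter.1 hx).2.2⟩
  have k2 : ∑ r ∈ (pT1 c).filter (fun r => r⁻¹ ∈ R1 ∧ r ≠ 1), ‖a r‖ * ‖b r‖ ≤ C1 * K := by
    refine hcs _ ?_ (hB _ fun r hr => (Finset.mem_filter.1 hr).2)
    rw [hinv _ a hai]
    refine hA _ fun r hr => ?_
    obtain ⟨x, hx, rfl⟩ := Finset.mem_image.1 hr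
    exact (Finset.mem_filter.1 hx).2.1
  have k3 : ∑ r ∈ (pT1 c).filter (fun r => r ∈ R0 ∧ r ≠ 1), ‖a r‖ * ‖b r‖ ≤ R0.card * (η + 2 * δ) := by
    calc ∑ r ∈ (pT1 c).filter (fun r => r ∈ R0 ∧ r ≠ 1), ‖a r‖ * ‖b r‖
        ≤ ∑ r ∈ (pT1 c).filter (fun r => r ∈ R0 ∧ r ≠ 1), (η + 2 * δ) := by
          refine Finset.sum_le_sum fun r hr => ?_
          exact (mul_le_of_le_one_left (norm_nonneg _) (ha1 r)).trans (hB0 r (Finset.mem_filter.1 hr).2.2)
      _ = (((pT1 c).filter (fun r => r ∈ R0 ∧ r ≠ 1)).card : ℝ) * (η + 2 * δ) := by rw [Finset.sum_const, nsmul_eq_mul]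
      _ ≤ R0.card * (η + 2 * δ) := by
          have e1 : ((pT1 c).filter (fun r => r ∈ R0 ∧ r ≠ 1)).card ≤ R0.card :=
            Finset.card_le_card fun r hr => (Finset.mem_filter.1 hr).2.1
          have e2 : (((pT1 c).filter (fun r => r ∈ R0 ∧ r ≠ 1)).card : ℝ) ≤ R0.card := by exact_mod_cast e1
          exact mul_le_mul_of_nonneg_right e2 (by positivity)
  have k0 : ∑ r ∈ (pT1 c).filter (fun r => r = 1), ‖a r‖ * ‖b r‖ ≤ 1 := by
    have e1 : (pT1 c).filter (fun r => r = 1) = {1} := by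
      ext x
      rw [Finset.mem_filter, Finset.mem_singleton]
      exact ⟨fun h => h.2, fun h => ⟨by rw [h]; exact one_mem_pT1 c, h⟩⟩
    rw [e1, Finset.sum_singleton]
    exact mul_le_one₀ (ha1 1) (norm_nonneg _) (hb1 1)
  have k4 : ∑ r ∈ pT1 c, ‖a r‖ * ‖b r‖ ≤ ∑ r ∈ (pT1 c).filter (fun r => r = 1), ‖a r‖ * ‖b r‖ +
      ∑ r ∈ (pT1 c).filter (fun r => r ∈ R1 ∧ r ≠ 1), ‖a r‖ * ‖b r‖ +
      ∑ r ∈ (pT1 c).filter (fun r => r⁻¹ ∈ R1 ∧ r ≠ 1), ‖a r‖ * ‖b r‖ +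
      ∑ r ∈ (pT1 c).filter (fun r => r ∈ R0 ∧ r ≠ 1), ‖a r‖ * ‖b r‖ := by
    rw [Finset.sum_filter, Finset.sum_filter, Finset.sum_filter, Finset.sum_filter, ← Finset.sum_add_distrib, ← Finset.sum_add_distrib,
      ← Finset.sum_add_distrib]
    refine Finset.sum_le_sum fun r _ => ?_
    have h0 : 0 ≤ ‖a r‖ * ‖b r‖ := mul_nonneg (norm_nonneg _) (norm_nonneg _)
    by_cases hr : ‖a r‖ * ‖b r‖ = 0
    · rw [hr]
      simp
    · by_cases hr1 : r = 1
      · rw [if_pos hr1]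
        split_ifs <;> linarith
      · rcases hcl' r hr with h3 | h3 | h3
        · rw [if_pos (show r ∈ R1 ∧ r ≠ 1 from ⟨h3, hr1⟩)]
          split_ifs <;> linarith
        · rw [if_pos (show r⁻¹ ∈ R1 ∧ r ≠ 1 from ⟨h3, hr1⟩)]
          split_ifs <;> linarith
        · rw [if_pos (show r ∈ R0 ∧ r ≠ 1 from ⟨h3, hr1⟩)]
          split_ifs <;> linarith
  linarith

end Pool.Agent.Helper11.NI
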