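import Pool.Agent.Helper20.TB.KapU

/-!
# Project FQ (MP_0f6f3f_an), layer NI: the near isometry, part 1

Finite vectors `vec T a = ∑_{r ∈ T} a r δ_r` of `ℓ²(G)`, the polarised pairing identity `pair_pol`, and the coefficients `cfr c e r = ∑_g e(g) conj (c g) c(g r)` of a contraction of finite support
(`norm_vec_bessel`, `norm_vec_sub_dl`).
-/

set_option autoImplicit false
set_option linter.unusedSectionVars false

open MeasureTheory Filter Topology
open scoped ComplexConjugate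

namespace Pool.Agent.Helper11.NI

open Pool.Agent.Helper84.NI Pool.Agent.Helper84.GN Pool.Agent.Helper84.GVN Pool.Agent.Helper20.TB

variable {G : Type} [Group G]

/-! ### Finite vectors -/

/-- The vector with the coefficients `a r`, `r ∈ T`. -/
noncomputable def vec (T : Finset G) (a : G → ℂ) : L2 G := ∑ r ∈ T, a r • (dl r : L2 G)

omit [Group G] in
open Classical in
theorem vec_apply (T : Finset G) (a : G → ℂ) (g : G) : vec T a g = if g ∈ T then a g else 0 := by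
  unfold vec
  rw [lp.coeFn_sum, Finset.sum_apply]
  have h1 : ∀ r ∈ T, (a r • (dl r : L2 G)) g = if g = r then a r else 0 := by
    intro r _
    change a r * (dl r : L2 G) g = _
    rw [dl_apply]
    split_ifs <;> simp
  rw [Finset.sum_congr rfl h1, Finset.sum_ite_eq]

omit [Group G] in
theorem norm_vec_sq (T : Finset G) (a : G → ℂ) : ‖vec T a‖ ^ 2 = ∑ r ∈ T, ‖a r‖ ^ 2 := by
  classical
  have h := hasSum_sq (vec T a)
  simp only [vec_apply] at h
  refine (h.unique (hasSum_sum_of_ne_finset_zero (s := T) fun g hg => ?_)).trans ?_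
  · rw [if_neg hg, norm_zero]
    norm_num
  · exact Finset.sum_congr rfl fun r hr => by rw [if_pos hr]

omit [Group G] in
theorem norm_vec (T : Finset G) (a : G → ℂ) : ‖vec T a‖ = √(∑ r ∈ T, ‖a r‖ ^ 2) := by
  rw [← norm_vec_sq, Real.sqrt_sq (norm_nonneg _)]

omit [Group G] in
theorem vec_congr {T : Finset G} {a b : G → ℂ} (h : ∀ r ∈ T, a r = b r) : vec T a = vec T b :=
  Finset.sum_congr rfl fun r hr => by rw [h r hr]

omit [Group G] in
theorem vec_add (T : Finset G) (a b : G → ℂ) : vec T (fun r => a r + b r) = vec T a + vec T b := by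
  unfold vec
  rw [← Finset.sum_add_distrib]
  exact Finset.sum_congr rfl fun r _ => add_smul _ _ _

omit [Group G] in
theorem vec_sub (T : Finset G) (a b : G → ℂ) : vec T (fun r => a r - b r) = vec T a - vec T b := by
  unfold vec
  rw [← Finset.sum_sub_distrib]
  exact Finset.sum_congr rfl fun r _ => sub_smul _ _ _

omit [Group G] in
theorem vec_sum {ι : Type} (s : Finset ι) (T : Finset G) (a : ι → G → ℂ) :
    vec T (fun r => ∑ i ∈ s, a i r) = ∑ i ∈ s, vec T (a i) := by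
  unfold vec
  rw [Finset.sum_comm]
  exact Finset.sum_congr rfl fun r _ => Finset.sum_smul

omit [Group G] in
theorem inner_vec (T : Finset G) (a b : G → ℂ) : (inner ℂ (vec T a) (vec T b) : ℂ) = ∑ r ∈ T, conj (a r) * b r := by
  classical
  have h1 : (inner ℂ (vec T a) (vec T b) : ℂ) = ∑ r ∈ T, conj (a r) * vec T b r := by
    conv_lhs => rw [vec]
    rw [sum_inner]
    refine Finset.sum_congr rfl fun r _ => ?_
    rw [inner_smul_left, inner_dl_left]
  rw [h1]
  refine Finset.sum_congr rfl fun r hr => ?_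
  rw [vec_apply, if_pos hr]

omit [Group G] in
theorem norm_vec_mul_le {T : Finset G} {a f : G → ℂ} {C : ℝ} (hC : 0 ≤ C) (hf : ∀ r ∈ T, ‖f r‖ ≤ C) :
    ‖vec T (fun r => f r * a r)‖ ≤ C * ‖vec T a‖ := by
  rw [norm_vec, norm_vec, ← Real.sqrt_sq hC, ← Real.sqrt_mul (sq_nonneg C), Finset.mul_sum]
  refine Real.sqrt_le_sqrt (Finset.sum_le_sum fun r hr => ?_)
  rw [norm_mul, mul_pow]
  gcongr
  exact hf r hr

omit [Group G] in
/-- The dual description of the norm. -/
theorem norm_vec_le_of_dual {T : Finset G} {a : G → ℂ} {C : ℝ} (hC : 0 ≤ C)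
    (h : ∀ w : G → ℂ, ‖∑ r ∈ T, w r * a r‖ ≤ C * √(∑ r ∈ T, ‖w r‖ ^ 2)) : ‖vec T a‖ ≤ C := by
  have h1 := h fun r => conj (a r)
  have h2 : ∑ r ∈ T, conj (a r) * a r = ((∑ r ∈ T, ‖a r‖ ^ 2 : ℝ) : ℂ) := by
    push_cast
    refine Finset.sum_congr rfl fun r _ => ?_
    rw [← Complex.normSq_eq_conj_mul_self, Complex.normSq_eq_norm_sq]
    push_cast
    rfl
  have h0 : 0 ≤ ∑ r ∈ T, ‖a r‖ ^ 2 := Finset.sum_nonneg fun _ _ => by positivity
  rw [h2, Complex.norm_real, Real.norm_of_nonneg h0] at h1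
  simp only [RCLike.norm_conj] at h1
  rw [← norm_vec_sq, Real.sqrt_sq (norm_nonneg _)] at h1
  by_contra hcon
  push Not at hcon
  have h3 : 0 < ‖vec T a‖ := lt_of_le_of_lt hC hcon
  nlinarith

omit [Group G] in
theorem norm_vec_subset {s T : Finset G} (h : s ⊆ T) (a : G → ℂ) : ‖vec s a‖ ≤ ‖vec T a‖ := by
  rw [norm_vec, norm_vec]
  exact Real.sqrt_le_sqrt (Finset.sum_le_sum_of_subset_of_nonneg h fun _ _ _ => by positivity)

/-! ### The coefficients of a contraction -/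

/-- The `ℓ²` norm of `e c`. -/
noncomputable def nr (e : G → ℂ) (c : G →₀ ℂ) : ℝ := √(∑ g ∈ c.support, ‖e g * c g‖ ^ 2)

omit [Group G] in
theorem nr_nonneg (e : G → ℂ) (c : G →₀ ℂ) : 0 ≤ nr e c := Real.sqrt_nonneg _

theorem nr_le_one {c : G →₀ ℂ} (hc : Con c) {e : G → ℂ} (he : ∀ g, ‖e g‖ ≤ 1) : nr e c ≤ 1 := by
  unfold nr
  rw [Real.sqrt_le_one]
  refine (Finset.sum_le_sum fun g _ => ?_).trans hc.sum_le
  rw [norm_mul]
  have h1 : ‖e g‖ * ‖c g‖ ≤ ‖c g‖ := mul_le_of_le_one_left (norm_nonneg _) (he g)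
  exact pow_le_pow_left₀ (by positivity) h1 2

/-- Bessel's inequality with the `ℓ²` norm. -/
theorem norm_vec_bessel {c : G →₀ ℂ} (hc : Con c) (e : G → ℂ) (T : Finset G) :
    ‖vec T (fun r => cfr c (fun g _ => e g) r)‖ ≤ nr e c := by
  classical
  unfold nr
  rw [norm_vec]
  refine Real.sqrt_le_sqrt ?_
  let ξ : G →₀ ℂ := Finsupp.onFinset c.support (fun g => conj (e g) * c g) fun g hg => by
    rw [Finsupp.mem_support_iff]
    rintro h
    exact hg (by rw [h, mul_zero])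
  have hξ : ∀ g, ξ g = conj (e g) * c g := fun g => rfl
  have h := hc ξ (T.image fun r => r⁻¹)
  rw [Finset.sum_image fun a _ b _ hab => inv_injective hab] at h
  have h1 : ∀ r, ∑ g ∈ c.support, conj (c g) * ξ (g * r⁻¹) = conj (cfr c (fun g _ => e g) r) := by
    intro r
    unfold cfr
    rw [map_sum]
    have h2 := sum_shift c (fun g => conj (e g)) r
    simp only [hξ]
    rw [h2]
    refine Finset.sum_congr rfl fun g _ => ?_
    rw [map_mul (starRingEnd ℂ), map_mul (starRingEnd ℂ), Complex.conj_conj]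
  have h3 : ∑ g ∈ ξ.support, ‖ξ g‖ ^ 2 ≤ ∑ g ∈ c.support, ‖e g * c g‖ ^ 2 := by
    calc ∑ g ∈ ξ.support, ‖ξ g‖ ^ 2 ≤ ∑ g ∈ c.support, ‖ξ g‖ ^ 2 :=
          Finset.sum_le_sum_of_subset_of_nonneg Finsupp.support_onFinset_subset fun _ _ _ => by positivity
      _ = ∑ g ∈ c.support, ‖e g * c g‖ ^ 2 := by
          refine Finset.sum_congr rfl fun g _ => ?_
          rw [hξ, norm_mul, RCLike.norm_conj, norm_mul]
  refine le_trans (le_of_eq ?_) (h.trans h3)
  refine Finset.sum_congr rfl fun r _ => ?_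
  rw [h1, RCLike.norm_conj]

/-- The coefficients of `λ(c)* c` are close to those of the unit. -/
theorem norm_vec_sub_dl {c : G →₀ ℂ} (hc : Con c) {T : Finset G} (hT : (1 : G) ∈ T) :
    ‖vec T (fun r => cfr c (fun _ _ => 1) r) - dl 1‖ ≤ √(1 - nr (fun _ => 1) c ^ 2) := by
  classical
  have h1 := norm_vec_bessel hc (fun _ => 1) T
  have h2 : cfr c (fun _ _ => 1) 1 = ((nr (fun _ => 1) c ^ 2 : ℝ) : ℂ) := by
    unfold cfr nr
    rw [Real.sq_sqrt (Finset.sum_nonneg fun _ _ => by positivity)]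
    push_cast
    refine Finset.sum_congr rfl fun g _ => ?_
    rw [mul_one, one_mul, one_mul, ← Complex.normSq_eq_conj_mul_self, Complex.normSq_eq_norm_sq]
    push_cast
    rfl
  refine Real.le_sqrt_of_sq_le ?_
  rw [@norm_sub_sq ℂ, inner_dl_right, vec_apply, if_pos hT, h2, norm_dl, Complex.conj_ofReal]
  have h3 : RCLike.re (((nr (fun _ => 1) c ^ 2 : ℝ) : ℂ)) = nr (fun _ => 1) c ^ 2 := Complex.ofReal_re _
  rw [h3]
  have h4 : ‖vec T (fun r => cfr c (fun _ _ => 1) r)‖ ^ 2 ≤ nr (fun _ => 1) c ^ 2 :=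
    pow_le_pow_left₀ (norm_nonneg _) h1 2
  linarith

/-! ### The pairing -/

open Classical in
/-- The set of the `g h⁻¹`. -/
noncomputable def pT0 (c c' : G →₀ ℂ) : Finset G := (c.support ×ˢ c'.support).image fun p => p.1 * p.2⁻¹

open Classical in
/-- The set of the `g⁻¹ g'`, and `1`. -/
noncomputable def pT1 (c : G →₀ ℂ) : Finset G := insert 1 ((c.support ×ˢ c.support).image fun p => p.1⁻¹ * p.2)

open Classical in
theorem one_mem_pT1 (c : G →₀ ℂ) : (1 : G) ∈ pT1 c := by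
  unfold pT1
  exact Finset.mem_insert_self _ _

/-- The coefficient at `k` of `∑_{g, h} e(g) c(g) conj (e'(h) c'(h)) δ_{g h⁻¹}`. -/
noncomputable def cS (c c' : G →₀ ℂ) (e e' : G → ℂ) (k : G) : ℂ :=
  ∑ g ∈ c.support, (e g * c g) * conj (e' (k⁻¹ * g) * c' (k⁻¹ * g))

/-- **The polarised pairing identity.** -/
theorem pair_pol (c c' : G →₀ ℂ) (e1 e2 e1' e2' : G → ℂ) :
    ∑ k ∈ pT0 c c', conj (cS c c' e2 e2' k) * cS c c' e1 e1' k =
      ∑ r ∈ pT1 c, conj (cfr c (fun g r => conj (e1 g) * e2 (g * r)) r) * cfr c' (fun g r => conj (e1' g) * e2' (g * r)) r := by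
  classical
  set A := c.support with hA
  set B := c'.support with hB
  set ζ1 : G → ℂ := fun g => e1 g * c g with hζ1
  set ζ2 : G → ℂ := fun g => e2 g * c g with hζ2
  set ζ1' : G → ℂ := fun g => e1' g * c' g with hζ1'
  set ζ2' : G → ℂ := fun g => e2' g * c' g with hζ2'
  have h10 : ∀ g, g ∉ A → ζ1 g = 0 := fun g hg => by
    simp only [hζ1]
    rw [Finsupp.notMem_support_iff.1 hg, mul_zero]
  have h20 : ∀ g, g ∉ A → ζ2 g = 0 := fun g hg => by
    simp only [hζ2]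
    rw [Finsupp.notMem_support_iff.1 hg, mul_zero]
  have h10' : ∀ g, g ∉ B → ζ1' g = 0 := fun g hg => by
    simp only [hζ1']
    rw [Finsupp.notMem_support_iff.1 hg, mul_zero]
  have h20' : ∀ g, g ∉ B → ζ2' g = 0 := fun g hg => by
    simp only [hζ2']
    rw [Finsupp.notMem_support_iff.1 hg, mul_zero]
  have hS1 : ∀ k, cS c c' e1 e1' k = ∑ g ∈ A, ζ1 g * conj (ζ1' (k⁻¹ * g)) := fun k => rfl
  have hS2 : ∀ k, cS c c' e2 e2' k = ∑ g ∈ A, ζ2 g * conj (ζ2' (k⁻¹ * g)) := fun k => rfl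
  -- the inner sums
  have h2 : ∀ g ∈ A, ∀ g', ∑ k ∈ pT0 c c', conj (ζ1' (k⁻¹ * g)) * ζ2' (k⁻¹ * g') =
      cfr c' (fun g r => conj (e1' g) * e2' (g * r)) (g⁻¹ * g') := by
    intro g hg g'
    have a1 : ∑ k ∈ pT0 c c', conj (ζ1' (k⁻¹ * g)) * ζ2' (k⁻¹ * g') = ∑' k, conj (ζ1' (k⁻¹ * g)) * ζ2' (k⁻¹ * g') := by
      refine (tsum_eq_sum fun k hk => ?_).symm
      rw [h10' (k⁻¹ * g) fun hgB => hk ?_, map_zero, zero_mul]
      rw [pT0, Finset.mem_image]
      refine ⟨(g, k⁻¹ * g), Finset.mem_product.2 ⟨hg, hgB⟩, ?_⟩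
      simp
    have a2 : cfr c' (fun g r => conj (e1' g) * e2' (g * r)) (g⁻¹ * g') = ∑' h, conj (ζ1' h) * ζ2' (h * (g⁻¹ * g')) := by
      unfold cfr
      rw [tsum_eq_sum (s := c'.support) fun h hh => by rw [h10' h hh, map_zero, zero_mul]]
      refine Finset.sum_congr rfl fun h _ => ?_
      simp only [hζ1', hζ2']
      rw [map_mul (starRingEnd ℂ)]
      ring
    rw [a1, a2, ← ((Equiv.inv G).trans (Equiv.mulRight g)).tsum_eq fun h => conj (ζ1' h) * ζ2' (h * (g⁻¹ * g'))]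
    refine tsum_congr fun k => ?_
    simp only [Equiv.trans_apply, Equiv.inv_apply, Equiv.coe_mulRight]
    rw [show k⁻¹ * g * (g⁻¹ * g') = k⁻¹ * g' by group]
  -- the double sum
  have h3 : ∑ k ∈ pT0 c c', conj (cS c c' e2 e2' k) * cS c c' e1 e1' k =
      ∑ g ∈ A, ∑ g' ∈ A, ζ1 g * conj (ζ2 g') * cfr c' (fun g r => conj (e1' g) * e2' (g * r)) (g⁻¹ * g') := by
    have a1 : ∀ k, conj (cS c c' e2 e2' k) * cS c c' e1 e1' k =
        ∑ g ∈ A, ∑ g' ∈ A, ζ1 g * conj (ζ2 g') * (conj (ζ1' (k⁻¹ * g)) * ζ2' (k⁻¹ * g')) := by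
      intro k
      rw [hS1, hS2, mul_comm, map_sum, Finset.sum_mul]
      refine Finset.sum_congr rfl fun g _ => ?_
      rw [Finset.mul_sum]
      refine Finset.sum_congr rfl fun g' _ => ?_
      rw [map_mul (starRingEnd ℂ) (ζ2 g'), Complex.conj_conj]
      ring
    simp only [a1]
    rw [Finset.sum_comm]
    refine Finset.sum_congr rfl fun g hg => ?_
    rw [Finset.sum_comm]
    refine Finset.sum_congr rfl fun g' _ => ?_
    rw [← Finset.mul_sum, h2 g hg g']
  rw [h3]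
  -- regroup over `r`
  have a1 : ∀ r, conj (cfr c (fun g r => conj (e1 g) * e2 (g * r)) r) = ∑ g ∈ A, ζ1 g * conj (ζ2 (g * r)) := by
    intro r
    unfold cfr
    rw [map_sum]
    refine Finset.sum_congr rfl fun g _ => ?_
    simp only [hζ1, hζ2]
    rw [map_mul (starRingEnd ℂ), map_mul (starRingEnd ℂ), map_mul (starRingEnd ℂ), Complex.conj_conj, Complex.conj_conj,
      map_mul (starRingEnd ℂ)]
    ring
  have a2 : ∑ r ∈ pT1 c, conj (cfr c (fun g r => conj (e1 g) * e2 (g * r)) r) * cfr c' (fun g r => conj (e1' g) * e2' (g * r)) r =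
      ∑ g ∈ A, ∑ r ∈ pT1 c, ζ1 g * conj (ζ2 (g * r)) * cfr c' (fun g r => conj (e1' g) * e2' (g * r)) r := by
    rw [Finset.sum_comm]
    refine Finset.sum_congr rfl fun r _ => ?_
    rw [a1, Finset.sum_mul]
  rw [a2]
  refine Finset.sum_congr rfl fun g hg => ?_
  have a3 : ∑ g' ∈ A, ζ1 g * conj (ζ2 g') * cfr c' (fun g r => conj (e1' g) * e2' (g * r)) (g⁻¹ * g') =
      ∑' g', ζ1 g * conj (ζ2 g') * cfr c' (fun g r => conj (e1' g) * e2' (g * r)) (g⁻¹ * g') :=
    (tsum_eq_sum fun g' hg' => by rw [h20 g' hg', map_zero, mul_zero, zero_mul]).symm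
  have a4 : ∑ r ∈ pT1 c, ζ1 g * conj (ζ2 (g * r)) * cfr c' (fun g r => conj (e1' g) * e2' (g * r)) r =
      ∑' r, ζ1 g * conj (ζ2 (g * r)) * cfr c' (fun g r => conj (e1' g) * e2' (g * r)) r := by
    refine (tsum_eq_sum fun r hr => ?_).symm
    rw [h20 (g * r) fun hgr => hr ?_, map_zero, mul_zero, zero_mul]
    rw [pT1, Finset.mem_insert, Finset.mem_image]
    refine Or.inr ⟨(g, g * r), Finset.mem_product.2 ⟨hg, hgr⟩, ?_⟩
    simp
  rw [a3, a4, ← (Equiv.mulLeft g).tsum_eq]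
  refine tsum_congr fun r => ?_
  simp only [Equiv.coe_mulLeft, inv_mul_cancel_left]

end Pool.Agent.Helper11.NI
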